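import Mathlib
import Pool.Agent.H21.WS.FrozenMain
import Pool.Agent.H21.WS.Fin

/-!
# Periodic orbits for Hamiltonians on `S × T` whose frozen flows preserve `d_x H`

`T` is a connected symplectic surface and `S` an arbitrary manifold with an arbitrary field of
bilinear forms, for instance a symplectic manifold of any dimension. The Hamiltonian `H (x, y)` on
`S × T` is such that, for each fixed `x`, the Hamiltonian flow of `H (x, ·)` on `T` (the frozen flow)
preserves the partial differential `d_x H (x, ·)`. This is the case, for example, if the functions
`H (x, ·)` Poisson commute with one another, in particular if `H (x, y) = F (x, G y)`.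

Let `Σ = {H = c}` be a compact regular level set. Through each point of `Σ` with `d_x H = 0` there is a
periodic orbit of the Hamiltonian flow of `H`, on which `x` is constant. Such points exist if `T` is not
compact, if the projection of `Σ` to `T` is not onto, or if `H (x, y) = F (x, G y)`, the form of `S` is
alternating and `ω_S ⊕ ω_T` is exact at `Σ`, as is the case if `Σ` is of contact type.

Proof. If `d_x H ≠ 0` on `Σ`, the projection of `Σ` to `T` is open and closed, so it is onto and `T` is
compact; if also `H (x, y) = F (x, G y)` then there is a section `y ↦ (s (G y), y)` of `Σ → T`, by an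
ordinary differential equation, and the form pulls back to `ω_T`, since `s (G y)` depends on one
parameter only; but the area form of a closed surface is not exact. If `d_x H = 0` at a point `(x, y)`
of `Σ`, the set `L` of the points `y'` of `T` with `H (x, y') = c` and `d_x H (x, y') = 0` is compact
and invariant under the frozen flow, and `d_y H (x, ·) ≠ 0` on `L`. As `T` is a surface, `L` consists
of closed orbits of the frozen flow.
-/

open scoped Topology ContDiff Manifold
open Pool.Agent.X167.W Pool.Agent.H21.WS

noncomputable section

namespace Pool.Agent.Results.MP_e3ee0c_gt.FrozenFlows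

universe u

theorem result (S T : Sys.{u}) [ConnectedSpace T.M] (hT : T.IsSurface)
    (H : (S.prod T).M → ℝ) (hH : (S.prod T).Smooth H)
    -- for each `x` the flow of `H (x, ·)` on `T` preserves `d_x H (x, ·)`
    (hcomm : ∀ (x : S.M) (u : S.E),
      Commute T (fun y => H (x, y)) (fun y => S.D (fun x' => H (x', y)) x u))
    -- a compact regular level set
    (c : ℝ) (hc : RegularLevel (S.prod T) H c) :
    -- if `T` is not compact, or the projection of the level set to `T` is not onto, or `H (x, y)` is
    -- `F (x, G y)`, the form of `S` is alternating and the form of `S × T` is exact at the level set,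
    -- then there are points with `d_x H = 0` on the level set
    ((¬ CompactSpace T.M ∨ (∃ y : T.M, ∀ x : S.M, H (x, y) ≠ c) ∨
      ((∃ (F : S.M × ℝ → ℝ) (G : T.M → ℝ), S.Smooth2 F ∧ T.Smooth G ∧ H = comp F G) ∧
        (∀ (x : S.M) (u : S.E), S.om x u u = 0) ∧ ExactAt (S.prod T) H c)) →
      ∃ (x : S.M) (y : T.M), H (x, y) = c ∧ S.d (fun x' => H (x', y)) x = 0) ∧
      -- through each of them there is a periodic orbit with constant first component
      ∀ (x : S.M) (y : T.M), H (x, y) = c → S.d (fun x' => H (x', y)) x = 0 →
        ∃ (δ : ℝ → T.M) (P : ℝ), (S.prod T).IsPeriodic H (fun t => (x, δ t)) P ∧ δ 0 = y ∧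
          ∀ t, H (x, δ t) = c := by
  refine ⟨?_, fun x y hxy hx =>
    orbit_at_rest hT (smoothProd_of hH) hcomm hc.compact hc.regular hxy hx⟩
  rintro (h | h | ⟨⟨F, G, hF, hG, rfl⟩, hS, hex⟩)
  · exact (frozen hT (smoothProd_of hH) hcomm hc (Or.inl h)).1
  · exact (frozen hT (smoothProd_of hH) hcomm hc (Or.inr h)).1
  · exact exists_rest hS hT.nondeg (by rw [hT.dim]; norm_num) hF hG hc.nonempty hc.compact
      (Or.inr hex)

end Pool.Agent.Results.MP_e3ee0c_gt.FrozenFlows
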