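import Mathlib
import Pool.Agent.H75.LR.Main2

/-! Weinstein conjecture (dimension at least five) for contact forms whose Reeb flow preserves a
Lorentzian metric, and for contact forms whose Reeb flow is conformal for a Lorentzian metric on the
contact hyperplanes; and in every dimension for contact forms whose Reeb flow preserves a
pseudo-Riemannian metric of any signature, if at ONE point the derivatives of the flow stay bounded
along a sequence of times, or the metric is positive definite on `ker α ∩ R^⊥`, or the metric is
Lorentzian and the Reeb field is causal (timelike or lightlike). -/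

open scoped Topology ContDiff Manifold
open Pool.Agent.H826R2.WStmt Pool.Agent.W671.RStmt Pool.Agent.H75.PRStmt Pool.Agent.H75.LR

namespace Pool.Agent.Results.MP_e3ee0c_gt.LorentzianReeb

universe u v

theorem result
    {E : Type u} [NormedAddCommGroup E] [NormedSpace ℝ E] [FiniteDimensional ℝ E]
    -- a closed connected manifold `M` of dimension at least two
    (hdim : 1 < Module.finrank ℝ E)
    {M : Type v} [TopologicalSpace M] [ChartedSpace E M] [IsManifold 𝓘(ℝ, E) ∞ M]
    [T2Space M] [CompactSpace M] [ConnectedSpace M]
    -- with a contact form `α`, its Reeb field `R` and the Reeb flow `Φ`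
    (α : M → Cov E) (hα : IsContact α) (R : M → E) (hR : IsReeb α R)
    (Φ : M → ℝ → M) (hΦ : IsFlow R Φ)
    -- and a field `g` of bilinear forms on the tangent spaces, such that
    (g : M → Bil E)
    (h :
      -- either the dimension is at least five, `g` is symmetric, smooth (it may be degenerate), its
      -- restriction to the contact hyperplanes `ker α` is Lorentzian, and the time `t` maps of the
      -- Reeb flow are conformal for this restriction,
      (4 < Module.finrank ℝ E ∧ IsSymForm g ∧ (∀ x, IsLorentzOn (α x) (g x)) ∧
        ConfPreserves α Φ g) ∨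
      -- or `g` is a pseudo-Riemannian metric of any signature which the Reeb flow preserves,
      (IsPseudoMetric g ∧ Preserves Φ g ∧
        -- and `g` is Lorentzian and the dimension is at least five, or there is a point `x` of `M`
        ((4 < Module.finrank ℝ E ∧ ∀ x, IsLorentz (g x)) ∨ ∃ x : M,
          -- such that the derivatives of the time `t` maps at `x` are bounded along a sequence
          -- `t → ∞`,
          BoundedAlong E Φ x ∨
          -- or `g` is positive definite on `ker α ∩ R^⊥` at `x`,
          PositiveAt α R g x ∨
          -- or `g` is Lorentzian at `x` and `R` is causal at `x`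
          (IsLorentz (g x) ∧ bev (g x) (R x) (R x) ≤ 0)))) :
    -- then there are two periodic Reeb orbits with disjoint images
    ∃ (c₁ c₂ : ℝ → M) (T₁ T₂ : ℝ), IsPeriodicOrbit R c₁ T₁ ∧ IsPeriodicOrbit R c₂ T₂ ∧
      Disjoint (Set.range c₁) (Set.range c₂) := by
  rcases h with ⟨h5, hs, hl, hc⟩ | ⟨hg, hinv, ⟨h5, hl⟩ | ⟨x, h⟩⟩
  · exact Pool.Agent.H75.LR.main_conf h5 α hα R hR Φ hΦ g hs hl hc
  · exact Pool.Agent.H75.LR.main_lor h5 α hα R hR Φ hΦ g hg hl hinv
  · exact Pool.Agent.H75.PR.main hdim α hα R hR Φ hΦ g hg hinv x h

end Pool.Agent.Results.MP_e3ee0c_gt.LorentzianReeb
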