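import Mathlib
import Pool.Agent.H88.WF.Main

/-!
# The Weinstein conjecture for contact forms of maximal elementary abelian symmetry rank

Let `M` be a closed connected manifold of dimension `2n+1` with a contact form `α`, and let an
elementary abelian `p`-group `G` of order `p^r` act effectively on `M` by diffeomorphisms preserving
`α`. Let `b` be the total Betti number of `M` with coefficients `ℤ/p` (singular cohomology). Then
`r ≤ n + b/2` if `p = 2` and `r ≤ n + b - 1` if `p` is odd, and if equality holds then the Reeb vector
field of `α` has a periodic orbit, through a point whose stabilizer has order `p^n`.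

For mod `p` homology spheres of dimension `2n+1` the extremal rank is `n+1`; it is attained on round
spheres, on lens spaces with fundamental group of order prime to `p`, and for `p = 2` on the Brieskorn
manifolds `Σ(a,2,…,2)` with `a` odd. For the unit cotangent bundle of the sphere `S^m` and `p = 2` one
has `n = m - 1`, `b = 4` and the extremal rank `m + 1` is attained by the diagonal subgroup of
`O(m+1)`.

Idea: if every stabilizer had order at most `p^(n-1)` then `|G|` would divide `p^(n-1+b/2)`
(resp. `p^(n-1+b-1)`), by the bounds for the total Betti number of a space with an action of an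
elementary abelian group. So some stabilizer has order `p^n`, and then it has no nonzero fixed vector
in the symplectic vector space `ker α_x`: the fixed point set is a circle near `x`.
-/

open scoped Topology ContDiff Manifold
open Pool.Agent.H826R2.WStmt

noncomputable section

namespace Pool.Agent.Results.MP_e3ee0c_gt.MaximalSymmetryRank

theorem result
    {E : Type} [NormedAddCommGroup E] [NormedSpace ℝ E] [FiniteDimensional ℝ E]
    -- a closed connected manifold of dimension `2n+1`
    {M : Type} [TopologicalSpace M] [ChartedSpace E M] [IsManifold 𝓘(ℝ, E) ∞ M]
    [T2Space M] [CompactSpace M] [ConnectedSpace M]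
    (n : ℕ) (hn : Module.finrank ℝ E = 2 * n + 1)
    -- a contact form and its Reeb vector field
    (α : M → Cov E) (hα : IsContact α) (R : M → E) (hR : IsReeb α R)
    -- an elementary abelian `p`-group of order `p ^ r` acting effectively by smooth maps
    -- preserving the contact form
    (p : ℕ) [Fact p.Prime] (G : Type) [CommGroup G] [MulAction G M] [FaithfulSMul G M]
    (hpow : ∀ g : G, g ^ p = 1) (r : ℕ) (hr : Nat.card G = p ^ r)
    (hs : ∀ g : G, ContMDiff 𝓘(ℝ, E) 𝓘(ℝ, E) ∞ (fun x : M => g • x))
    (hpr : ∀ g : G, pull (fun x : M => g • x) α = α) :
    -- the total mod `p` Betti number is a finite number `b`, and ...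
    ∃ b : ℕ, Pool.Agent.Helper381.totalBetti (ZMod p) M = b ∧
      -- the rank is bounded, and ...
      r ≤ n + (if p = 2 then b / 2 else b - 1) ∧
      -- if the bound is attained there is a periodic Reeb orbit
      (r = n + (if p = 2 then b / 2 else b - 1) →
        ∃ (c : ℝ → M) (T : ℝ), Nat.card (MulAction.stabilizer G (c 0)) = p ^ n ∧
          IsPeriodicOrbit R c T) := by
  have hp : p.Prime := Fact.out
  have hfin : Finite G := Nat.finite_of_card_ne_zero (by rw [hr]; exact (pow_pos hp.pos r).ne')
  obtain ⟨h1, h2, h3⟩ := Pool.Agent.H88.WF.main hn hα hR hs hpr hp hpow hr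
  refine ⟨(Pool.Agent.Helper381.totalBetti (ZMod p) M).toNat,
    (ENat.natCast_toNat_eq_self.2 h1).symm, h2, h3⟩

end Pool.Agent.Results.MP_e3ee0c_gt.MaximalSymmetryRank
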