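import Mathlib
import Pool.Agent.H15.WM.Core

/-!
# The Weinstein conjecture for Hamiltonians that depend on a nonabelian momentum map

`(M, ω)` is a symplectic manifold (only: `ω` is alternating), `K` a compact group acting on `M` by
diffeomorphisms preserving `ω`, with momentum functions `μ ζ`: the momentum `μ ζ` generates the
one-parameter group `e ζ` of `K`. The Hamiltonian `H` is not supposed to be invariant under `K`. `Σ` is
a compact regular level set of `H`, or a part of one which is open in it, with the property that

  `x ∈ Σ` and `μ (k x) = μ x` imply `k x ∈ Σ`,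

which is true for `H = F (h, μ)` with arbitrary `F` and `K`-invariant `h`: all collective Hamiltonians
`F ∘ μ`, all `K`-invariant Hamiltonians, all left-invariant Hamiltonians on the cotangent bundle of a
compact Lie group.

Theorem: let `η` be such that `e η` is a circle, `e η 1 = 1` on `M`, which moves a point of `Σ`. If the
momentum `μ η` is zero at its critical points in `K Σ` (there are none, or `ω = dθ` with invariant `θ`
and `μ η = θ (X)`), then `Σ` carries a periodic orbit, and this is an orbit of a conjugate of the circle.
`Σ` need not be of contact type.

Idea of the proof. Let `(k, x)` be a maximum of `μ η (k x)` on `K × Σ`. Its being a maximum in `k`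
implies that `μ` is constant along the orbit of the conjugate circle through `x`, so that this orbit
lies in `Σ`, and its being a maximum in `x` implies (Lagrange multipliers) that the orbit is tangent to
the Hamiltonian field.
-/

open scoped Topology ContDiff Manifold
open Pool.Agent.X167.W Pool.Agent.H15.WM

noncomputable section

namespace Pool.Agent.Results.MP_e3ee0c_gt.MomentumHamiltonians

universe u

theorem result (S : Sys.{u})
    -- the form is alternating
    (halt : ∀ (x : S.M) (u : S.E), S.om x u u = 0)
    -- a compact group acting by diffeomorphisms which preserve the form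
    {K : Type*} [Group K] [TopologicalSpace K] [CompactSpace K] [MulAction K S.M]
    [ContinuousSMul K S.M] (hK : ActsSymplectically S K)
    -- momentum functions `μ ζ` of one-parameter groups `e ζ` in `K`
    {Z : Type*} (e : Z → ℝ → K) (μ : Z → S.M → ℝ) (hμ : ∀ ζ, IsMomentum S (e ζ) (μ ζ))
    -- a compact regular level set `L` of the Hamiltonian `H` (or an open part of one, e.g. a component)
    (H : S.M → ℝ) (hH : S.Smooth H) (c₀ : ℝ) (L : Set S.M) (hL : RegularPart S H c₀ L)
    -- which contains, with `x`, the points `k x` with the same momentum
    (hinv : ∀ (k : K) (x : S.M), x ∈ L → (∀ ζ, μ ζ (k • x) = μ ζ x) → k • x ∈ L)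
    -- one of the one-parameter groups is a circle, moving a point of the level set
    (η : Z) (hη : ∀ x : S.M, e η 1 • x = x) (hmove : ∃ x ∈ L, S.d (μ η) x ≠ 0)
    -- whose momentum vanishes at its critical points in `K L`
    (hN : ∀ (k : K) (x : S.M), x ∈ L → S.d (μ η) (k • x) = 0 → μ η (k • x) = 0) :
    ∃ (k : K) (x : S.M) (τ : ℝ → ℝ) (T : ℝ),
      S.IsPeriodic H (fun t => (k⁻¹ * e η (τ t) * k) • x) T ∧
        ∀ t, (k⁻¹ * e η (τ t) * k) • x ∈ L :=
  compact_case hK halt (hμ η) hη hμ hH hL hinv hN hmove

end Pool.Agent.Results.MP_e3ee0c_gt.MomentumHamiltonians
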